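import Pool.Agent.H48.RN.Stmts1

/-!
Board rn, module MOP: Moebius sums twisted by the principal character.
-/

set_option autoImplicit false

namespace Pool.RN

open Polynomial

/-- formal series as sequences: the Cauchy product -/
noncomputable def MOP_conv (f g : ℕ → ℂ) (n : ℕ) : ℂ :=
  ∑ p ∈ Finset.HasAntidiagonal.antidiagonal n, f p.1 * g p.2

theorem MOP_eq (a m : ℕ → ℂ) (n : ℕ) :
    MOP_conv (fun j => if j = 0 then 0 else a j) m n =
      ∑ j ∈ Finset.Icc 1 n, a j * m (n - j) := by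
  unfold MOP_conv
  rw [Finset.Nat.sum_antidiagonal_eq_sum_range_succ
    (fun i j => (if i = 0 then 0 else a i) * m j) n]
  rw [Finset.sum_range_succ']
  simp only [if_true, zero_mul, add_zero, Nat.add_eq_zero_iff, one_ne_zero, and_false, if_false]
  rw [Finset.range_eq_Ico, Finset.sum_Ico_add' (fun j => a j * m (n - j)) 0 n 1]
  rfl

/-- the derivation `n f n` satisfies the product rule -/
theorem MOP_leib (f g : ℕ → ℂ) (n : ℕ) : (n : ℂ) * MOP_conv f g n =
    MOP_conv (fun i => i * f i) g n + MOP_conv f (fun i => i * g i) n := by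
  unfold MOP_conv
  rw [Finset.mul_sum, ← Finset.sum_add_distrib]
  refine Finset.sum_congr rfl fun p hp => ?_
  have h : (n : ℂ) = (p.1 : ℂ) + (p.2 : ℂ) := by
    rw [← Nat.cast_add, Finset.HasAntidiagonal.mem_antidiagonal.1 hp]
  rw [h]
  ring

theorem MOP_conv_ps (f g : ℕ → ℂ) (n : ℕ) :
    MOP_conv f g n = PowerSeries.coeff n (PowerSeries.mk f * PowerSeries.mk g) := by
  rw [PowerSeries.coeff_mul]
  simp [MOP_conv]

theorem MOP_assoc (f g h : ℕ → ℂ) : MOP_conv (MOP_conv f g) h = MOP_conv f (MOP_conv g h) := by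
  have e : ∀ f g : ℕ → ℂ, PowerSeries.mk (MOP_conv f g) = PowerSeries.mk f * PowerSeries.mk g := by
    intro f g
    ext n
    rw [PowerSeries.coeff_mk, MOP_conv_ps]
  funext n
  rw [MOP_conv_ps, MOP_conv_ps, e, e, mul_assoc]

theorem MOP_comm (f g : ℕ → ℂ) : MOP_conv f g = MOP_conv g f := by
  funext n
  rw [MOP_conv_ps, MOP_conv_ps, mul_comm]

theorem MOP_left_comm (f g h : ℕ → ℂ) :
    MOP_conv f (MOP_conv g h) = MOP_conv g (MOP_conv f h) := by
  rw [← MOP_assoc, MOP_comm f g, MOP_assoc]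

/-- the recursion for the partial sums -/
theorem MOP_rec (q : ℂ) (a mm : ℕ → ℂ)
    (hm : ∀ n : ℕ, (n : ℂ) * mm n = ∑ j ∈ Finset.Icc 1 n, (-a j) * mm (n - j)) (n : ℕ) :
    (n : ℂ) * MOP_conv mm (fun i => q ^ i) n =
      ∑ j ∈ Finset.Icc 1 n, (q ^ j - a j) * MOP_conv mm (fun i => q ^ i) (n - j) := by
  set G : ℕ → ℂ := fun i => q ^ i with hG
  have h1 : (fun i : ℕ => (i : ℂ) * mm i) = MOP_conv (fun j => if j = 0 then 0 else -a j) mm := by
    funext i
    rw [hm i, MOP_eq]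
  have h2 : (fun i : ℕ => (i : ℂ) * G i) = MOP_conv (fun j => if j = 0 then 0 else q ^ j) G := by
    funext i
    rw [MOP_eq]
    have e : ∀ j ∈ Finset.Icc 1 i, q ^ j * G (i - j) = q ^ i := by
      intro j hj
      rw [hG]
      simp only
      rw [← pow_add, Nat.add_sub_cancel' (Finset.mem_Icc.1 hj).2]
    rw [Finset.sum_congr rfl e, Finset.sum_const, Nat.card_Icc, nsmul_eq_mul]
    simp [hG]
  rw [MOP_leib, h1, h2, MOP_assoc, MOP_left_comm mm, MOP_eq (fun j => -a j),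
    MOP_eq (fun j => q ^ j), ← Finset.sum_add_distrib]
  refine Finset.sum_congr rfl fun j _ => ?_
  ring

theorem MOP_diff (q : ℂ) (mm : ℕ → ℂ) (n : ℕ) :
    mm (n + 1) = MOP_conv mm (fun i => q ^ i) (n + 1) - q * MOP_conv mm (fun i => q ^ i) n := by
  rw [MOP_comm]
  unfold MOP_conv
  rw [Finset.Nat.sum_antidiagonal_succ]
  simp only [pow_zero, one_mul, pow_succ]
  rw [Finset.mul_sum]
  have e : ∀ p ∈ Finset.HasAntidiagonal.antidiagonal n, q ^ p.1 * q * mm p.2 = q * (q ^ p.1 * mm p.2) :=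
    fun p _ => by ring
  rw [Finset.sum_congr rfl e, add_sub_cancel_right]

section

variable {F : Type} [Field F] [Fintype F]

theorem MOP_zero (ψ : F[X] → ℂ) (h : CMul ψ) : mm ψ 0 = 1 := by
  classical
  have e : Mon F 0 = {1} := by
    ext f
    rw [mem_Mon, Finset.mem_singleton]
    constructor
    · rintro ⟨h1, h2⟩
      exact (Monic.natDegree_eq_zero h1).1 h2
    · rintro rfl
      exact ⟨monic_one, natDegree_one⟩
  unfold mm
  rw [e, Finset.sum_singleton, h.one, mul_one]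
  unfold mu pf
  rw [if_pos squarefree_one, UniqueFactorizationMonoid.normalizedFactors_one]
  simp

theorem MOP_deg (M : F[X]) (hM : M.Monic) : ∑ P ∈ pf M, P.natDegree ≤ M.natDegree := by
  classical
  have h1 : (∏ P ∈ pf M, P) ∣ M := by
    have h2 : (∏ P ∈ pf M, P) = ((UniqueFactorizationMonoid.normalizedFactors M).dedup).prod := by
      unfold pf
      rw [Finset.prod_eq_multiset_prod, Multiset.toFinset_val, Multiset.map_id']
    rw [h2]
    exact (Multiset.prod_dvd_prod_of_le (Multiset.dedup_le _)).trans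
      (UniqueFactorizationMonoid.prod_normalizedFactors hM.ne_zero).dvd
  have h2 := natDegree_le_of_dvd h1 hM.ne_zero
  rwa [natDegree_prod _ _ fun P hP => ((mem_pf hM.ne_zero).1 hP).1.ne_zero] at h2

/-- the exponents -/
theorem MOP_c (hPRC : S_PRC F) (M : F[X]) (hM : M.Monic) (j : ℕ) (hj : 1 ≤ j) :
    ‖(Fintype.card F : ℂ) ^ j - aa (dir (1 : MulChar (AdjoinRoot M) ℂ)) j‖ ≤
      min ((Fintype.card F : ℝ) ^ j) (M.natDegree) := by
  classical
  set ψ : F[X] → ℂ := dir (1 : MulChar (AdjoinRoot M) ℂ) with hψ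
  have hψ01 : ∀ f : F[X], ψ f = 1 ∨ (ψ f = 0 ∧ ¬ IsUnit (AdjoinRoot.mk M f)) := by
    intro f
    by_cases hu : IsUnit (AdjoinRoot.mk M f)
    · exact Or.inl (MulChar.one_apply hu)
    · exact Or.inr ⟨MulChar.map_nonunit _ hu, hu⟩
  have hdvd : ∀ P : F[X], Irreducible P → ψ P = 0 → P ∣ M := by
    intro P hP h0
    rcases hψ01 P with h1 | ⟨-, h1⟩
    · rw [h1] at h0
      exact absurd h0 one_ne_zero
    · by_contra hn
      apply h1
      obtain ⟨a, b, hab⟩ := (hP.coprime_iff_not_dvd).2 hn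
      refine IsUnit.of_mul_eq_one (AdjoinRoot.mk M a) ?_
      have h2 := congrArg (AdjoinRoot.mk M) hab
      rw [map_add, map_mul, map_mul, AdjoinRoot.mk_self, mul_zero, add_zero, map_one] at h2
      rw [mul_comm]
      exact h2
  set c : ℝ := ∑ d ∈ j.divisors, ∑ P ∈ (Irr F d).filter (fun P => ψ P = 0), (d : ℝ) with hc
  have hc1 : (Fintype.card F : ℂ) ^ j - aa ψ j = (c : ℂ) := by
    have h1 : (Fintype.card F : ℂ) ^ j = ∑ d ∈ j.divisors, ∑ P ∈ Irr F d, (d : ℂ) := by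
      have h2 := hPRC j hj
      have h3 : ((Fintype.card F ^ j : ℕ) : ℂ) = ∑ d ∈ j.divisors, ∑ P ∈ Irr F d, (d : ℂ) := by
        rw [← h2]
        push_cast
        refine Finset.sum_congr rfl fun d _ => ?_
        rw [Finset.sum_const, nsmul_eq_mul, mul_comm]
      rw [← h3]
      push_cast
      rfl
    unfold aa
    rw [h1, ← Finset.sum_sub_distrib, hc]
    push_cast
    refine Finset.sum_congr rfl fun d hd => ?_
    rw [← Finset.sum_sub_distrib, Finset.sum_filter]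
    refine Finset.sum_congr rfl fun P _ => ?_
    have hjd : j / d ≠ 0 := by
      have := Nat.pos_of_mem_divisors hd
      exact (Nat.div_pos (Nat.divisor_le hd) this).ne'
    rcases hψ01 P with h2 | ⟨h2, -⟩
    · rw [h2, if_neg one_ne_zero]
      simp
    · rw [h2, if_pos rfl, zero_pow hjd]
      simp
  have hc0 : 0 ≤ c := Finset.sum_nonneg fun d _ => Finset.sum_nonneg fun P _ => Nat.cast_nonneg d
  rw [hc1, Complex.norm_real, Real.norm_of_nonneg hc0]
  refine le_min ?_ ?_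
  · have h2 : (Fintype.card F : ℝ) ^ j = ∑ d ∈ j.divisors, ∑ P ∈ Irr F d, (d : ℝ) := by
      have h3 : ((Fintype.card F ^ j : ℕ) : ℝ) = ∑ d ∈ j.divisors, ∑ P ∈ Irr F d, (d : ℝ) := by
        rw [← hPRC j hj]
        push_cast
        refine Finset.sum_congr rfl fun d _ => ?_
        rw [Finset.sum_const, nsmul_eq_mul, mul_comm]
      rw [← h3]
      push_cast
      rfl
    rw [h2, hc]
    refine Finset.sum_le_sum fun d _ => ?_
    exact Finset.sum_le_sum_of_subset_of_nonneg (Finset.filter_subset _ _)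
      fun P _ _ => Nat.cast_nonneg d
  · have h3 : c = ∑ P ∈ (j.divisors).biUnion (fun d => (Irr F d).filter (fun P => ψ P = 0)),
        (P.natDegree : ℝ) := by
      rw [Finset.sum_biUnion]
      · rw [hc]
        refine Finset.sum_congr rfl fun d _ => Finset.sum_congr rfl fun P hP => ?_
        rw [(mem_Irr.1 (Finset.mem_filter.1 hP).1).1.2]
      · intro d _ d' _ hdd
        rw [Function.onFun, Finset.disjoint_left]
        intro P hP hP'
        exact hdd ((mem_Irr.1 (Finset.mem_filter.1 hP).1).1.2.symm.trans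
          (mem_Irr.1 (Finset.mem_filter.1 hP').1).1.2)
    rw [h3]
    refine le_trans ?_ (Nat.cast_le.2 (MOP_deg M hM) : ((∑ P ∈ pf M, P.natDegree : ℕ) : ℝ) ≤ _)
    push_cast
    refine Finset.sum_le_sum_of_subset_of_nonneg ?_ fun P _ _ => Nat.cast_nonneg _
    intro P hP
    obtain ⟨d, -, hPd⟩ := Finset.mem_biUnion.1 hP
    obtain ⟨h4, h5⟩ := Finset.mem_filter.1 hPd
    obtain ⟨⟨h6, -⟩, h7⟩ := mem_Irr.1 h4
    exact (mem_pf hM.ne_zero).2 ⟨h6, h7, hdvd P h7 h5⟩

end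

theorem s_MOP (F : Type) [Field F] [Fintype F] (hMAJ : S_MAJ) (hEXB : S_EXB) (hLGM : S_LGM F)
    (hPRC : S_PRC F) : S_MOP F := by
  intro ε hε
  set q : ℕ := Fintype.card F with hq
  have hq2 : 2 ≤ q := Fintype.one_lt_card
  have hqr : (1 : ℝ) ≤ q := by exact_mod_cast (by omega : 1 ≤ q)
  have hq0 : (0 : ℝ) < q := by linarith
  obtain ⟨C, hC⟩ := hEXB q ε hq2 hε
  refine ⟨(1 + q) * Real.exp C, by positivity, ?_⟩
  intro M hM hm N
  set ψ : F[X] → ℂ := dir (1 : MulChar (AdjoinRoot M) ℂ) with hψ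
  have hψm : CMul ψ := CMul.dir _
  set b : ℕ → ℂ := MOP_conv (mm ψ) (fun i => (q : ℂ) ^ i) with hb
  have hb0 : b 0 = 1 := by
    simp [hb, MOP_conv, MOP_zero ψ hψm]
  have hrec : ∀ n : ℕ, (n : ℂ) * b n = ∑ j ∈ Finset.Icc 1 n,
      ((q : ℂ) ^ j - aa ψ j) * b (n - j) := fun n => MOP_rec (q : ℂ) (aa ψ) (mm ψ)
        (fun n => hLGM ψ hψm n) n
  set u : ℝ := (q : ℝ) ^ (-(1 / 2 + ε)) with hu
  have hu0 : 0 < u := Real.rpow_pos_of_pos hq0 _
  have hsq : 1 ≤ Real.sqrt q := Real.one_le_sqrt.2 hqr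
  have hbd : ∀ n : ℕ, ‖b n‖ ≤ Real.exp C * (q : ℝ) ^ ((1 / 2 + ε) * n + ε * M.natDegree) := by
    intro n
    have h1 := hMAJ b (fun j => (q : ℂ) ^ j - aa ψ j)
      (fun j => min ((q : ℝ) ^ j) (M.natDegree * Real.sqrt q ^ j)) hb0 hrec (fun j hj => by
        refine (MOP_c hPRC M hM j hj).trans (min_le_min_left _ ?_)
        exact le_mul_of_one_le_right (Nat.cast_nonneg _) (one_le_pow₀ hsq)) u n hu0
    have h2 := h1.trans (Real.exp_le_exp.2 (hC M.natDegree n))
    have h3 : Real.exp (C + ε * M.natDegree * Real.log q) =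
        Real.exp C * (q : ℝ) ^ (ε * M.natDegree) := by
      rw [Real.exp_add, Real.rpow_def_of_pos hq0]
      ring_nf
    rw [h3] at h2
    have h4 : u ^ n * (q : ℝ) ^ ((1 / 2 + ε) * n) = 1 := by
      rw [hu, ← Real.rpow_natCast, ← Real.rpow_mul hq0.le, ← Real.rpow_add hq0]
      rw [show -(1 / 2 + ε) * (n : ℝ) + (1 / 2 + ε) * n = 0 by ring, Real.rpow_zero]
    calc ‖b n‖ = ‖b n‖ * u ^ n * (q : ℝ) ^ ((1 / 2 + ε) * n) := by rw [mul_assoc, h4, mul_one]
      _ ≤ (Real.exp C * (q : ℝ) ^ (ε * M.natDegree)) * (q : ℝ) ^ ((1 / 2 + ε) * n) :=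
          mul_le_mul_of_nonneg_right h2 (Real.rpow_nonneg hq0.le _)
      _ = _ := by
          rw [mul_assoc, ← Real.rpow_add hq0, add_comm (ε * _)]
  rcases N with _ | N
  · rw [MOP_zero ψ hψm, norm_one]
    have h1 := hbd 0
    rw [hb0, norm_one] at h1
    refine h1.trans ?_
    have h2 : 0 ≤ Real.exp C * (q : ℝ) ^ ((1 / 2 + ε) * ((0 : ℕ) : ℝ) + ε * M.natDegree) := by
      positivity
    rw [mul_assoc]
    nlinarith
  · have h1 : mm ψ (N + 1) = b (N + 1) - q * b N := MOP_diff (q : ℂ) (mm ψ) N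
    rw [h1]
    refine (norm_sub_le _ _).trans ?_
    rw [norm_mul, Complex.norm_natCast]
    have h2 : ‖b N‖ ≤ Real.exp C *
        (q : ℝ) ^ ((1 / 2 + ε) * ((N + 1 : ℕ) : ℝ) + ε * M.natDegree) := by
      refine (hbd N).trans (mul_le_mul_of_nonneg_left ?_ (Real.exp_pos _).le)
      apply Real.rpow_le_rpow_of_exponent_le hqr
      push_cast
      nlinarith
    have h3 := mul_le_mul_of_nonneg_left h2 hq0.le
    calc ‖b (N + 1)‖ + q * ‖b N‖ ≤ _ := add_le_add (hbd (N + 1)) h3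
      _ = _ := by ring

end Pool.RN
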