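import Pool.Agent.H48.RN.Stmts2

/-!
# Project RN, module STP: Stepanov's bound
-/

set_option autoImplicit false
set_option linter.unusedSectionVars false

namespace Pool.RN

open Polynomial

theorem stp_arith (w h D K Q m N a b r : ℤ) (hw : 1 ≤ w) (hh : 1 ≤ h) (hD : 0 ≤ D)
    (hK : K = 2 * (h + 2) * (h * D + w) * w)
    (hQ : 2 * (h * D + w) * w * (h + 2) + (h * D + w) * (1 + K) + w * D + w ^ 2 < Q)
    (hm : Q ≤ (h + 2) * (m + 1)) (hN1 : w * Q + h * K ≤ h * N) (hN2 : N ≤ w * Q + 1 + K)
    (h1 : w * r ≤ h * (Q * m + (D + N) + w)) (h2 : h * m ≤ w * a + h * D)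
    (h3 : h * (D + N) ≤ w * b + h * D) (ha : 0 ≤ a) : r < a * b := by
  obtain ⟨c, hc⟩ : ∃ c : ℤ, c = h * D + w := ⟨_, rfl⟩
  have hc1 : D + 1 ≤ c := by nlinarith
  have hc0 : 1 ≤ c := by linarith
  rw [← hc] at hQ hK
  have hcw : 1 ≤ c * w := by nlinarith
  have hK0 : 0 ≤ K := by
    rw [hK]
    have : (0:ℤ) ≤ (h + 2) * (c * w) := by positivity
    nlinarith
  have hQ0 : 0 ≤ Q := by
    have e1 : 0 ≤ 2 * c * w * (h + 2) := by
      have : (0:ℤ) ≤ (h + 2) * (c * w) := by positivity
      nlinarith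
    have e2 : 0 ≤ c * (1 + K) := by positivity
    have e3 : 0 ≤ w * D := by positivity
    have e4 : 0 ≤ w ^ 2 := by positivity
    linarith
  have hN0 : 0 ≤ N := by
    by_contra hneg
    have e1 : h * N < 0 := by nlinarith
    have e2 : 0 ≤ w * Q := by positivity
    have e3 : 0 ≤ h * K := by positivity
    linarith
  -- lower bound for m
  have hmD : D ≤ m := by
    have e1 : 2 * c * w * (h + 2) < (h + 2) * (m + 1) := by
      have e2 : 0 ≤ c * (1 + K) := by positivity
      have e3 : 0 ≤ w * D := by positivity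
      have e4 : 0 ≤ w ^ 2 := by positivity
      linarith
    have e5 : 2 * c * w < m + 1 := by
      by_contra hne
      push Not at hne
      have : (h + 2) * (m + 1) ≤ (h + 2) * (2 * c * w) := mul_le_mul_of_nonneg_left hne (by linarith)
      linarith
    nlinarith
  -- key inequality
  have key : c * N + w * D + w ^ 2 < m * (h * K) := by
    have e1 : m * K ≤ m * (h * K) := by
      apply mul_le_mul_of_nonneg_left _ (by linarith)
      nlinarith
    have e2 : 2 * (c * w) * (Q - (h + 2)) ≤ m * K := by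
      have : Q - (h + 2) ≤ (h + 2) * m := by linarith
      have e3 : 2 * (c * w) * (Q - (h + 2)) ≤ 2 * (c * w) * ((h + 2) * m) :=
        mul_le_mul_of_nonneg_left this (by linarith)
      rw [hK]
      linarith
    have e4 : c * N ≤ c * (w * Q + 1 + K) := mul_le_mul_of_nonneg_left hN2 (by linarith)
    have e5 : Q ≤ (c * w) * Q := by nlinarith
    nlinarith
  by_contra hcon
  push Not at hcon
  have f1 : w * (w * (a * b)) ≤ w * (h * (Q * m + (D + N) + w)) := by
    apply mul_le_mul_of_nonneg_left _ (by linarith)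
    exact le_trans (mul_le_mul_of_nonneg_left hcon (by linarith)) h1
  have f2 : (h * (m - D)) * (h * N) ≤ (w * a) * (w * b) := by
    apply mul_le_mul
    · linarith
    · linarith
    · positivity
    · positivity
  have f3 : h * ((m - D) * (h * N)) ≤ h * (w * (Q * m + (D + N) + w)) := by
    nlinarith
  have f4 : (m - D) * (h * N) ≤ w * (Q * m + (D + N) + w) := le_of_mul_le_mul_left f3 (by linarith)
  have f5 : m * (w * Q + h * K) ≤ m * (h * N) := mul_le_mul_of_nonneg_left hN1 (by linarith)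
  have f6 : c * N = h * D * N + w * N := by rw [hc]; ring
  nlinarith

theorem NN_le {F k : Type} [Field F] [Fintype F] [Field k] [Algebra F k] (M : F[X]) (j : ℕ)
    (hj : 1 ≤ j) (u : AdjoinRoot M) : NN M k j u ≤ Fintype.card F ^ j := by
  classical
  have h1 : 1 < Fintype.card F ^ j := Nat.one_lt_pow (by omega) Fintype.one_lt_card
  have e1 : NN M k j u ≤ (Fx F k j).card := by
    unfold NN
    exact Finset.card_filter_le _ _
  have e2 : (Fx F k j).card ≤ Fintype.card F ^ j := by
    unfold Fx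
    refine le_trans (Multiset.toFinset_card_le _) ?_
    refine le_trans (card_roots' _) ?_
    refine le_trans (natDegree_sub_le _ _) ?_
    rw [natDegree_X_pow, natDegree_X]
    exact max_le le_rfl h1.le
  exact le_trans e1 e2

/-- Module STP. -/
theorem s_STP {F k : Type} [Field F] [Fintype F] [Field k] [Algebra F k] [IsAlgClosed k]
    [Algebra.IsAlgebraic F k] (M : F[X]) (Y : (EE k)[X]) (hM : M.Monic) (hm : 1 ≤ M.natDegree)
    (hY : Good M Y) (hSTB : S_STB M Y) (hDUP : S_DUP M Y) (hDLO : S_DLO M Y) : S_STP M Y := by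
  obtain ⟨D, hD⟩ := hDLO
  obtain ⟨h, hh⟩ : ∃ h : ℕ, h = (HH M Y).card := ⟨_, rfl⟩
  obtain ⟨q, hq⟩ : ∃ q : ℕ, q = Fintype.card F := ⟨_, rfl⟩
  have hq1 : 1 < q := by rw [hq]; exact Fintype.one_lt_card
  obtain ⟨w, hw⟩ : ∃ w : ℕ, w + 1 = q := ⟨q - 1, by omega⟩
  have hw1 : 1 ≤ w := by omega
  have hwq : Fintype.card F - 1 = w := by omega
  unfold S_STP
  rw [← hq, ← hh]
  rcases Nat.eq_zero_or_pos h with h0 | hpos
  · refine ⟨0, fun s hs u hu => ?_⟩
    rw [h0]
    simp
  · obtain ⟨K, hK⟩ : ∃ K : ℕ, K = 2 * (h + 2) * (h * D + w) * w := ⟨_, rfl⟩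
    obtain ⟨Q₀, hQ₀⟩ : ∃ Q₀ : ℕ, Q₀ = 2 * (h * D + w) * w * (h + 2) + (h * D + w) * (1 + K) +
      w * D + w ^ 2 := ⟨_, rfl⟩
    refine ⟨(1 + h * D + h + h * K) + h * Q₀, fun s hs u hu => ?_⟩
    obtain ⟨Q, hQ⟩ : ∃ Q : ℕ, Q = q ^ s := ⟨_, rfl⟩
    have hQpos : 1 ≤ Q := by rw [hQ]; exact Nat.one_le_pow _ _ (by omega)
    have hQ2 : q ^ (2 * s) = Q ^ 2 := by rw [hQ, mul_comm, pow_mul]
    rw [hQ2, ← hQ]
    by_cases hQQ : Q₀ < Q
    · obtain ⟨m', hm'⟩ : ∃ m' : ℕ, m' = Q / (h + 2) := ⟨_, rfl⟩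
      obtain ⟨N', hN'⟩ : ∃ N' : ℕ, N' = w * Q / h + 1 + K := ⟨_, rfl⟩
      have a1 : (h + 2) * m' ≤ Q := by rw [hm']; exact Nat.mul_div_le _ _
      have a2 : Q ≤ (h + 2) * (m' + 1) := by
        rw [hm']
        exact (Nat.lt_mul_div_succ Q (by omega)).le
      have a3 : h * (w * Q / h) ≤ w * Q := Nat.mul_div_le _ _
      have a4 : w * Q ≤ h * (w * Q / h + 1) := (Nat.lt_mul_div_succ (w * Q) (by omega)).le
      have a5 : w * Q / h ≤ w * Q := Nat.div_le_self _ _
      have a6 : w * Q + h * K ≤ h * N' := by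
        rw [hN']
        nlinarith
      have a7 : h * N' ≤ w * Q + h + h * K := by
        rw [hN']
        nlinarith
      have a8 : N' ≤ w * Q + 1 + K := by
        rw [hN']
        omega
      have key : Module.finrank k (RR F M.natDegree Y (q ^ s * m' + (D + N'))) <
          Module.finrank k (RR F M.natDegree Y m') * Module.finrank k (RR F M.natDegree Y (D + N')) := by
        have b1 := (hDUP (q ^ s * m' + (D + N'))).2
        have b2 := hD m'
        have b3 := hD (D + N')
        rw [hwq, ← hh] at b1 b2 b3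
        rw [← hQ] at b1 ⊢
        have := stp_arith w h D K Q m' N' (Module.finrank k (RR F M.natDegree Y m'))
          (Module.finrank k (RR F M.natDegree Y (D + N')))
          (Module.finrank k (RR F M.natDegree Y (Q * m' + (D + N'))))
          (by exact_mod_cast hw1) (by exact_mod_cast hpos) (by positivity)
          (by exact_mod_cast hK) (by rw [hQ₀] at hQQ; exact_mod_cast hQQ) (by exact_mod_cast a2)
          (by exact_mod_cast a6) (by exact_mod_cast a8) (by exact_mod_cast b1)
          (by exact_mod_cast b2) (by exact_mod_cast b3) (by positivity)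
        exact_mod_cast this
      have hlt : (h + 1) * m' < q ^ s := by
        rw [← hQ]
        rcases Nat.eq_zero_or_pos m' with h0 | h0
        · rw [h0]; omega
        · nlinarith
      have hb := hSTB s m' (D + N') u hu hs (by rw [← hq]; exact key) (by rw [← hq, ← hh]; exact hlt)
      rw [hwq, ← hq, ← hQ] at hb
      have c1 : w * (h * NN M k (2 * s) u) ≤ w * (Q ^ 2 + (1 + h * D + h + h * K + h * Q₀) * Q) := by
        have d1 : h * (w * NN M k (2 * s) u) ≤ h * (m' + Q * (D + N')) := Nat.mul_le_mul_left _ hb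
        have d2 : Q * (h * N') ≤ Q * (w * Q + h + h * K) := Nat.mul_le_mul_left _ a7
        have d3 : h * m' ≤ Q := by nlinarith
        have d4 : w * (h * NN M k (2 * s) u) ≤ w * Q ^ 2 + (1 + h * D + h + h * K) * Q := by
          nlinarith
        have d5 : (1 + h * D + h + h * K) * Q ≤ w * ((1 + h * D + h + h * K + h * Q₀) * Q) := by
          have d6 : (1 + h * D + h + h * K) * Q ≤ (1 + h * D + h + h * K + h * Q₀) * Q :=
            Nat.mul_le_mul_right _ (by omega)
          exact le_trans d6 (Nat.le_mul_of_pos_left _ hw1)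
        rw [mul_add]
        linarith
      exact Nat.le_of_mul_le_mul_left c1 hw1
    · push Not at hQQ
      have e1 : NN M k (2 * s) u ≤ Q ^ 2 := by
        rw [← hQ2, hq]
        exact NN_le M (2 * s) (by omega) u
      have e2 : h * NN M k (2 * s) u ≤ h * Q ^ 2 := Nat.mul_le_mul_left _ e1
      have e3 : h * Q ^ 2 ≤ h * Q₀ * Q := by
        rw [pow_two, ← mul_assoc]
        exact Nat.mul_le_mul_right _ (Nat.mul_le_mul_left _ hQQ)
      have e4 : h * Q₀ * Q ≤ (1 + h * D + h + h * K + h * Q₀) * Q :=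
        Nat.mul_le_mul_right _ (by omega)
      omega

end Pool.RN
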